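import Pool.Agent.H49.SDP.Targets

/-!
# HAF: Fourier support of a combination of products of the Hartley basis (helper45)
-/

namespace Pool.Agent.H45.SDP

open Finset Matrix Pool.Agent.H49.SDP
open Pool.Agent.H1.LP (Clause viol Loc Sys Agree supp ip kk)

theorem char_sum {G : Type*} [AddCommMonoid G] (ψ : AddChar G ℂ) {B : ℕ} (f : Fin B → G) :
    ψ (∑ i, f i) = ∏ i, ψ (f i) := by
  induction B with
  | zero => simp
  | succ n ih => rw [Fin.sum_univ_succ, Fin.prod_univ_succ, AddChar.map_add_eq_mul, ih]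

theorem pf_HAF : S_HAF := by
  intro p B t _ Φ ho _ c hc l hl
  have : NeZero p := ⟨(Fact.out : p.Prime).ne_zero⟩
  have hchar : ∀ z : Fin B → ZMod p, (ZMod.stdAddChar (ip l z) : ℂ) =
      ∏ i, (ZMod.stdAddChar (l i * z i) : ℂ) := by
    intro z
    unfold ip
    exact char_sum _ _
  have h1 : ∀ z : Fin B → ZMod p,
      ((∑ κ, c κ * ∏ i, Φ.φ (κ i) (z i) : ℝ) : ℂ) * ZMod.stdAddChar (ip l z) =
      ∑ κ : Fin B → ZMod p, (c κ : ℂ) *
        ∏ i, ((Φ.φ (κ i) (z i) : ℂ) * (ZMod.stdAddChar (l i * z i) : ℂ)) := by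
    intro z
    rw [hchar z]
    push_cast
    rw [Finset.sum_mul]
    refine Finset.sum_congr rfl fun κ _ => ?_
    rw [Finset.prod_mul_distrib]
    ring
  rw [Finset.sum_congr rfl fun z _ => h1 z, Finset.sum_comm]
  refine Finset.sum_eq_zero fun κ _ => ?_
  by_cases hk : t ≤ lv Φ κ
  · simp [hc κ hk]
  · rw [← Finset.mul_sum]
    have h2 : ∑ z : Fin B → ZMod p,
        ∏ i, ((Φ.φ (κ i) (z i) : ℂ) * (ZMod.stdAddChar (l i * z i) : ℂ)) =
        ∏ i, ∑ x : ZMod p, ((Φ.φ (κ i) x : ℂ) * (ZMod.stdAddChar (l i * x) : ℂ)) := by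
      rw [Finset.prod_univ_sum]
      refine Finset.sum_congr ?_ fun _ _ => rfl
      ext z
      simp
    rw [h2]
    have h3 : ∃ i, i ∈ supp l ∧ κ i = Φ.o := by
      by_contra hcon
      push Not at hcon
      apply hk
      refine hl.trans ?_
      unfold lv
      refine Finset.card_le_card ?_
      intro i hi
      simp only [Finset.mem_filter, Finset.mem_univ, true_and]
      exact hcon i hi
    obtain ⟨i, hi, hio⟩ := h3
    have h4 : ∑ x : ZMod p, ((Φ.φ (κ i) x : ℂ) * (ZMod.stdAddChar (l i * x) : ℂ)) = 0 := by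
      have hli : l i ≠ 0 := by
        simpa [supp] using hi
      have h5 : ∀ x : ZMod p, ((Φ.φ (κ i) x : ℂ) * (ZMod.stdAddChar (l i * x) : ℂ)) =
          (ZMod.stdAddChar.mulShift (l i) : AddChar (ZMod p) ℂ) x := by
        intro x
        rw [hio, Φ.one, AddChar.mulShift_apply]
        simp
      rw [Finset.sum_congr rfl fun x _ => h5 x]
      refine AddChar.sum_eq_zero_of_ne_one ?_
      exact (ZMod.isPrimitive_stdAddChar p) hli
    rw [Finset.prod_eq_zero (Finset.mem_univ i) h4, mul_zero]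

end Pool.Agent.H45.SDP
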